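import Pool.Agent.W425.SM.Stmts

set_option autoImplicit false

/-! The local version at the origin: definitions and statements of the parts. -/

namespace Pool.Agent.W425.SL

open MvPolynomial Pool.Agent.H628R4.TZ Pool.Agent.H628R4.TP Pool.Agent.W425.SM

/-- `b(s) f ^ s = P(s) f ^ (s + 1)` for a differential operator `P(s)` whose coefficients are
(formal) power series at the origin: `P(s) = ∑_k s ^ (m_k) p_k Q_k` with formal power series `p_k`
and operators `Q_k` of the Weyl algebra. All the operators with convergent power series as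
coefficients are of this form. The equation is stated for all `s ∈ ℕ`; this is equivalent to the
formal equation, as the coefficients are polynomials in `s`. -/
def IsLocalBFunction {N : ℕ} (f : MvPolynomial (Fin N) ℂ) (b : Polynomial ℂ) : Prop :=
  ∃ (n : ℕ) (m : Fin n → ℕ) (p : Fin n → MvPowerSeries (Fin N) ℂ) (Q : Fin n → weylS (Fin N)),
    ∀ s : ℕ, b.eval (s : ℂ) • ((f ^ s : MvPolynomial (Fin N) ℂ) : MvPowerSeries (Fin N) ℂ) =
      ∑ k, ((s : ℂ) ^ m k) • (p k *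
        (((Q k : Module.End ℂ (MvPolynomial (Fin N) ℂ)) (f ^ (s + 1)) : MvPolynomial (Fin N) ℂ) :
          MvPowerSeries (Fin N) ℂ))

/-- The local relation with a polynomial unit at the origin. -/
def IsUnitBFunction {N : ℕ} (f : MvPolynomial (Fin N) ℂ) (b : Polynomial ℂ) : Prop :=
  ∃ (a : MvPolynomial (Fin N) ℂ) (P : ℕ →₀ weylS (Fin N)), constantCoeff a = 1 ∧
    ∀ s : ℕ, C (b.eval (s : ℂ)) * a * f ^ s =
    P.sum fun m Q => ((s : ℂ) ^ m) • (Q : Module.End ℂ (MvPolynomial (Fin N) ℂ)) (f ^ (s + 1))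

/-- Part L1 -/
def TaskL1 : Prop := ∀ {N : ℕ} (f : MvPolynomial (Fin N) ℂ) (b : Polynomial ℂ), f ≠ 0 →
  constantCoeff f = 0 → IsLocalBFunction f b → b.eval (-1) = 0 ∧ IsUnitBFunction f b

/-- The algebraic relation satisfied by `b_{f,0}(s) / (s + 1)`. -/
def RelL {r N : ℕ} (v : Fin r → Fin N → ℕ) (p : Polynomial ℂ) : Prop :=
  ∃ (M : ℕ) (Cs : Finset (Fin r → ℤ)) (q : (Fin r → ℤ) → MvPolynomial (Fin r) ℂ)
    (Cs0 : Finset (Fin r → ℤ)) (q0 : (Fin r → ℤ) → MvPolynomial (Fin r) ℂ),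
    (∀ c ∈ Cs, ∑ j, c j = 1) ∧
    (∀ c ∈ Cs0, ∑ j, c j = 0 ∧ (∀ i, ∑ j, c j * (v j i : ℤ) ≤ 0) ∧
      ∃ i, ∑ j, c j * (v j i : ℤ) < 0) ∧
    Polynomial.aeval (∑ j, X j : MvPolynomial (Fin r) ℂ) p * ∏ j, dm M j =
      ∑ c ∈ Cs, (∏ i ∈ Bc v c, el v i) * ((∏ j, if c j < 0 then X j * dm M j else 1) * q c) +
      ∑ c ∈ Cs0, (∏ j, if c j < 0 then X j * dm M j else 1) * q0 c

/-- Part L2 -/
def TaskL2 : Prop := ∀ {r N : ℕ} (v : Fin r → Fin N → ℕ) (a : Fin r → ℂ) (p : Polynomial ℂ),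
  Ind v → (∀ j, a j ≠ 0) → IsUnitBFunction (sparse v a) ((Polynomial.X + 1) * p) → RelL v p

end Pool.Agent.W425.SL
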