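import Pool.Agent.W425.SL.Main
import Pool.Agent.W368.SL.L1
import Pool.Agent.W596.SL.L2
import Pool.Agent.H628R4.TP.LocDefs

set_option autoImplicit false

namespace Pool.Agent.W425.SL

open MvPolynomial Pool.Agent.H628R4.TZ Pool.Agent.W425.SM

variable {r N : ℕ}

lemma toSL {f : MvPolynomial (Fin N) ℂ} {b : Polynomial ℂ}
    (hb : Pool.Agent.H628R4.TP.IsLocalBFunction f b) : IsLocalBFunction f b := by
  obtain ⟨L, m, a, Q, h⟩ := hb
  refine ⟨L, m, a, Q, fun s => ?_⟩
  have h1 := h s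
  simp only [← MvPowerSeries.smul_eq_C_mul] at h1
  exact h1

lemma sparse_coeff {v : Fin r → Fin N → ℕ} (hv : Ind v) (a : Fin r → ℂ) (j : Fin r) :
    coeff (Finsupp.equivFunOnFinite.symm (v j)) (sparse v a) = a j := by
  classical
  unfold sparse
  rw [coeff_sum, Finset.sum_eq_single j]
  · have h1 : (C (a j) * ∏ i, X i ^ v j i : MvPolynomial (Fin N) ℂ) =
        monomial (Finsupp.equivFunOnFinite.symm (v j)) (a j) := by
      rw [monomial_eq, Finsupp.prod_fintype _ _ (by simp)]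
      rfl
    rw [h1, coeff_monomial, if_pos rfl]
  · intro j' _ hj
    have h1 : (C (a j') * ∏ i, X i ^ v j' i : MvPolynomial (Fin N) ℂ) =
        monomial (Finsupp.equivFunOnFinite.symm (v j')) (a j') := by
      rw [monomial_eq, Finsupp.prod_fintype _ _ (by simp)]
      rfl
    rw [h1, coeff_monomial, if_neg]
    intro h
    exact hj (hv.injective (Finsupp.equivFunOnFinite.symm.injective h))
  · intro h; exact absurd (Finset.mem_univ _) h

lemma sparse_ne_zero {v : Fin r → Fin N → ℕ} (hr : 1 ≤ r) (hv : Ind v) (a : Fin r → ℂ)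
    (ha : ∀ j, a j ≠ 0) : sparse v a ≠ 0 := by
  intro h
  have h1 := sparse_coeff hv a ⟨0, hr⟩
  rw [h, coeff_zero] at h1
  exact ha _ h1.symm

lemma sparse_const {v : Fin r → Fin N → ℕ} (hv0 : ∀ j, v j ≠ 0) (a : Fin r → ℂ) :
    constantCoeff (sparse v a) = 0 := by
  unfold sparse
  rw [map_sum]
  refine Finset.sum_eq_zero fun j _ => ?_
  rw [map_mul, map_prod]
  obtain ⟨i, hi⟩ := Function.ne_iff.1 (hv0 j)
  rw [Finset.prod_eq_zero (Finset.mem_univ i), mul_zero]
  rw [map_pow, constantCoeff_X, zero_pow hi]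

open Polynomial in
theorem final (hr : 1 ≤ r) (v : Fin r → Fin N → ℕ) (a : Fin r → ℂ)
    (hv : AffineIndependent ℚ (fun j => (fun i => (v j i : ℚ) : Fin N → ℚ)))
    (hv0 : ∀ j, v j ≠ 0) (ha : ∀ j, a j ≠ 0) (R : SmoothFan N) (hR : Principal v R)
    (b : ℂ[X]) (hb : Pool.Agent.H628R4.TP.IsLocalBFunction (sparse v a) b) :
    ∃ P : ℂ[X], algebraMap ℂ[X] (RatFunc ℂ) b * topZetaSparseLocal v R =
      algebraMap ℂ[X] (RatFunc ℂ) P :=
  mainL Pool.Agent.W368.SL.taskL1 Pool.Agent.W596.SL.taskL2 hr v a hv hv0 ha R hR b (toSL hb)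
    (sparse_ne_zero hr hv a ha) (sparse_const hv0 a)

end Pool.Agent.W425.SL
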