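import Pool.Agent.W425.SL.Defs
import Pool.Agent.W425.SM.FF

set_option autoImplicit false

namespace Pool.Agent.W425.SL

open MvPolynomial Pool.Agent.H628R4.TZ Pool.Agent.H628R4.TP Pool.Agent.W425.SM MeasureTheory Set
  Filter Topology

variable {r N : ℕ}

lemma killed0 (v : Fin r → Fin N → ℕ) (ε : ℝ) (hε : 0 < ε) (κ : Fin r → ℕ) (M : ℕ)
    (hκ : ∀ j, κ j ≤ M) (s T δ : ℝ) (hδ : δ < 0) (c : Fin r → ℤ) (hc : ∑ j, c j = 0)
    (hc1 : ∀ i, ∑ j, c j * (v j i : ℤ) ≤ 0) (hc2 : ∃ i, ∑ j, c j * (v j i : ℤ) < 0)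
    (hT : ε * (∑ j, |(c j : ℝ)|) < -δ)
    (S : Finset (Fin N)) (q : MvPolynomial (Fin r) ℂ) :
    HH v ε κ s (yT v T δ) S (q * ∏ j, (if c j < 0 then X j * dm M j else 1)) = 0 := by
  classical
  unfold HH
  refine integral_eq_zero_of_ae ?_
  filter_upwards [ae_ms (S.map (Fin.succEmb N))] with x hx
  obtain ⟨hx0, hxS⟩ := hx
  set y := Y (av v) (yT v T δ) x with hy
  by_contra hne
  have hne' : DD (pk ε κ) y (q * ∏ j, (if c j < 0 then X j * dm M j else 1)) ≠ 0 := by
    intro h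
    apply hne
    simp only [Pi.zero_apply]
    rw [h, mul_zero]
  have h1 : ∀ j, 0 ≤ y j := by
    intro j
    by_contra h
    exact hne' (DD_neg ε hε κ y j (not_le.1 h) _)
  have h2 : ∀ j, c j < 0 → y j ≤ ε := by
    intro j hj
    by_contra h
    apply hne'
    have h3 : (X j + C ((κ j : ℕ) : ℂ)) ∣ q * ∏ j, (if c j < 0 then X j * dm M j else 1) := by
      refine Dvd.dvd.mul_left ?_ q
      refine (Xdm_dvd M j (κ j) (hκ j)).trans ?_
      have := Finset.dvd_prod_of_mem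
        (fun j => (if c j < 0 then X j * dm M j else 1 : MvPolynomial (Fin r) ℂ)) (Finset.mem_univ j)
      simpa [hj] using this
    obtain ⟨w, hw⟩ := h3
    rw [hw]
    exact DD_tail ε hε κ y j (not_le.1 h) w
  have h3 : -(ε * ∑ j, |(c j : ℝ)|) ≤ ∑ j, (c j : ℝ) * y j := by
    rw [Finset.mul_sum, ← Finset.sum_neg_distrib]
    refine Finset.sum_le_sum fun j _ => ?_
    rcases lt_or_ge (c j) 0 with h | h
    · have h' : (c j : ℝ) < 0 := by exact_mod_cast h
      rw [abs_of_neg h']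
      nlinarith [h2 j h]
    · have h' : (0:ℝ) ≤ c j := by exact_mod_cast h
      rw [abs_of_nonneg h']
      nlinarith [h1 j, mul_nonneg h' (h1 j), mul_nonneg hε.le h']
  have hcR : ∑ j, (c j : ℝ) = 0 := by exact_mod_cast hc
  have h4 : ∑ j, (c j : ℝ) * y j = ∑ i : Fin N, (∑ j, (c j : ℝ) * v j i) * x i.succ -
      δ * ∑ i : Fin N, (∑ j, (c j : ℝ) * v j i) := by
    have : ∀ j, (c j : ℝ) * y j = ∑ i, (c j : ℝ) * v j i * x i.succ - (c j : ℝ) * (x 0 + T) -
        δ * ∑ i, (c j : ℝ) * v j i := by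
      intro j
      rw [hy, Y_av', yT, ← Finset.mul_sum]
      simp only [mul_assoc]
      rw [← Finset.mul_sum]
      ring
    simp only [this]
    rw [Finset.sum_sub_distrib, Finset.sum_sub_distrib, ← Finset.sum_mul, hcR, zero_mul,
      ← Finset.mul_sum, Finset.sum_comm, Finset.sum_comm (s := Finset.univ (α := Fin r))
        (f := fun j i => (c j : ℝ) * (v j i : ℝ)), sub_zero]
    congr 1
    exact Finset.sum_congr rfl fun i _ => by rw [Finset.sum_mul]
  have h5 : ∑ i : Fin N, (∑ j, (c j : ℝ) * v j i) * x i.succ ≤ 0 := by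
    refine Finset.sum_nonpos fun i _ => ?_
    have h' : (∑ j, (c j : ℝ) * v j i) ≤ 0 := by exact_mod_cast hc1 i
    exact mul_nonpos_of_nonpos_of_nonneg h' (hx0 _)
  have h6 : ∑ i : Fin N, (∑ j, (c j : ℝ) * v j i) ≤ -1 := by
    have h7 : ∑ i : Fin N, (∑ j, c j * (v j i : ℤ)) < 0 := by
      obtain ⟨i, hi⟩ := hc2
      exact Finset.sum_neg' (fun i _ => hc1 i) ⟨i, Finset.mem_univ i, hi⟩
    have h8 : ∑ i : Fin N, (∑ j, c j * (v j i : ℤ)) ≤ -1 := by omega
    exact_mod_cast h8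
  nlinarith

/-- **The functional kills `k * p(∑ X_j)`, local version.** -/
theorem killsL (v : Fin r → Fin N → ℕ) (p : Polynomial ℂ) (hR : RelL v p)
    (k : MvPolynomial (Fin r) ℂ)
    (hk : ∀ (κ : Fin r → ℕ) (i : Fin N), ∑ j, κ j * v j i = 1 →
      k ∈ Ideal.span {p : MvPolynomial (Fin r) ℂ | ∃ j, 0 < v j i ∧ p = X j + C ((κ j : ℕ) : ℂ)}) :
    ∃ K0 s0 : ℝ, 0 ≤ K0 ∧ 0 < s0 ∧ ∀ ε > 0, ∀ δ < 0, ε * K0 < -δ → ∀ T : ℝ,
      (ε + |δ|) * K0 < T → ∀ s : ℝ, s0 ≤ s →
      Φ (ph ε) ∅ (lm (N := N) s) (av v) (yT v T δ)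
        (k * Polynomial.aeval (∑ j, X j : MvPolynomial (Fin r) ℂ) p) = 0 := by
  classical
  obtain ⟨M, Cs, q, Cs0, q0, hc, hc0, hrel⟩ := hR
  obtain ⟨cf, hcf⟩ := DD_sum (r := r) M
  set KK := Fintype.piFinset (fun _ : Fin r => Finset.range (M+1)) with hKK
  refine ⟨∑ c ∈ Cs, (∑ j, |(c j : ℝ)| + ∑ i, |∑ j, (c j : ℝ) * (v j i : ℝ)|) +
      ∑ c ∈ Cs0, ∑ j, |(c j : ℝ)|,
    (∑ κ ∈ KK, (Lam v κ : ℝ)) + 1, by positivity, by positivity,
    fun ε hε δ hδ hεδ T hT s hs => ?_⟩
  have hT1 : (ε + |δ|) * (∑ c ∈ Cs, (∑ j, |(c j : ℝ)| + ∑ i, |∑ j, (c j : ℝ) * (v j i : ℝ)|)) < T := by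
    refine lt_of_le_of_lt (mul_le_mul_of_nonneg_left ?_ (by positivity)) hT
    exact le_add_of_nonneg_right (by positivity)
  have hεδ1 : ε * (∑ c ∈ Cs0, ∑ j, |(c j : ℝ)|) < -δ := by
    refine lt_of_le_of_lt (mul_le_mul_of_nonneg_left ?_ (by positivity)) hεδ
    exact le_add_of_nonneg_left (by positivity)
  have hzero : ∀ κ ∈ KK, HH v ε κ s (yT v T δ) ∅
      ((k * Polynomial.aeval (∑ j, X j : MvPolynomial (Fin r) ℂ) p) * ∏ j, dm M j) = 0 ∧
      Gd v ε κ ∅ ((k * Polynomial.aeval (∑ j, X j : MvPolynomial (Fin r) ℂ) p) * ∏ j, dm M j) ∧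
      (Lam v κ : ℝ) + 1 ≤ s := by
    intro κ hκ
    have hκM : ∀ j, κ j ≤ M := fun j => by
      have := (Fintype.mem_piFinset.1 hκ) j
      rw [Finset.mem_range] at this
      omega
    have hs' : (Lam v κ : ℝ) + 1 ≤ s := by
      refine le_trans ?_ hs
      have := Finset.single_le_sum (f := fun κ : Fin r → ℕ => (Lam v κ : ℝ))
        (fun _ _ => Nat.cast_nonneg _) hκ
      linarith
    have hGd : Gd v ε κ ∅
        ((k * Polynomial.aeval (∑ j, X j : MvPolynomial (Fin r) ℂ) p) * ∏ j, dm M j) := by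
      intro i _ hi
      have h1 : ∃ j, 0 < κ j * v j i := by
        by_contra hcon
        push Not at hcon
        have : ell v κ i = 0 := Finset.sum_eq_zero fun j _ => Nat.le_zero.1 (hcon j)
        omega
      obtain ⟨j, hj⟩ := h1
      have hj1 : 0 < κ j := Nat.pos_of_mul_pos_right hj
      have hj2 : 0 < v j i := Nat.pos_of_mul_pos_left hj
      refine (goodDir_lin hε (κ := κ) j hj2).of_dvd ?_
      refine Dvd.dvd.mul_left ?_ _
      exact (dm_dvd M j (κ j) hj1 (hκM j)).trans (Finset.dvd_prod_of_mem _ (Finset.mem_univ j))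
    refine ⟨?_, hGd, hs'⟩
    set L : List (Fin N) := (Finset.univ.filter fun i => 2 ≤ ell v κ i).toList with hL
    have hLnd : L.Nodup := Finset.nodup_toList _
    have hLell : ∀ i ∈ L, ell v κ i ≠ 1 := fun i hi => by
      have : 2 ≤ ell v κ i := by simpa [hL] using hi
      omega
    have hkgood : ∀ i, i ∉ L → 0 < ell v κ i → GoodDir v ε κ i k := by
      intro i hi h
      have h1 : ell v κ i = 1 := by
        have : ¬ 2 ≤ ell v κ i := fun h' => hi (by simp [hL, h'])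
        omega
      have h2 := hk κ i h1
      rw [← Submodule.mem_toAddSubmonoid, ] at h2
      refine Submodule.span_induction (p := fun x _ => GoodDir v ε κ i x) ?_ ?_ ?_ ?_
        (by simpa [Ideal.span] using h2)
      · rintro x ⟨j, hj, rfl⟩
        exact goodDir_lin hε j hj
      · exact GoodDir.zero
      · intro x y _ _ hx hy
        exact hx.add hy
      · intro a x _ hx
        exact hx.mul_left a
    rw [← FF_eq v ε hε κ s hs' _ L ∅ _ (by simp) hLnd hLell hGd]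
    set F : (Fin r → ℤ) ⊕ (Fin r → ℤ) → MvPolynomial (Fin r) ℂ := Sum.elim
      (fun c => (∏ i ∈ Bc v c, el v i) *
          ((k * q c) * ∏ j, (if c j < 0 then X j * dm M j else 1)))
      (fun c => (k * q0 c) * ∏ j, (if c j < 0 then X j * dm M j else 1)) with hF
    have h3 : (k * Polynomial.aeval (∑ j, X j : MvPolynomial (Fin r) ℂ) p) * ∏ j, dm M j =
        ∑ x ∈ Cs.disjSum Cs0, F x := by
      rw [mul_assoc, hrel, Finset.sum_disjSum, mul_add, Finset.mul_sum, Finset.mul_sum]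
      congr 1
      · exact Finset.sum_congr rfl fun c _ => by rw [hF, Sum.elim_inl]; ring
      · exact Finset.sum_congr rfl fun c _ => by rw [hF, Sum.elim_inr]; ring
    rw [h3, FF_sum v ε hε κ s hs', Finset.sum_disjSum]
    · rw [Finset.sum_eq_zero, Finset.sum_eq_zero, add_zero]
      · intro c hcc
        rw [hF, Sum.elim_inr]
        rw [mul_assoc]
        rw [mul_comm (q0 c), ← mul_assoc, mul_comm _ (q0 c)]
        obtain ⟨h1, h2, h3⟩ := hc0 c hcc
        have h4 := FF_kill v ε κ s (yT v T δ) (∏ j, (if c j < 0 then X j * dm M j else 1)) ∅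
          (fun S q' _ => by
            refine killed0 v ε hε κ M hκM s T δ hδ c h1 h2 h3 (lt_of_le_of_lt ?_ hεδ1) S q'
            refine mul_le_mul_of_nonneg_left ?_ (by positivity)
            exact Finset.single_le_sum (f := fun c : Fin r → ℤ => (∑ j, |(c j : ℝ)|))
              (fun c _ => by positivity) hcc) L ∅ (q0 c * k) subset_rfl
        rwa [mul_assoc] at h4
      · intro c hcc
        rw [hF, Sum.elim_inl]
        have hH : Hyp v ε κ L ∅ ((k * q c) * ∏ j, (if c j < 0 then X j * dm M j else 1)) :=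
          fun i _ h1 h2 => ((hkgood i h1 h2).mul_right _).mul_right _
        obtain ⟨L', hL'⟩ := FF_steps v ε hε κ s hs' (yT v T δ) (Bc v c) L ∅ _
          (Finset.disjoint_empty_right _) hLnd hLell hH
        rw [hL', Finset.union_empty]
        refine FF_kill v ε κ s _ _ (Bc v c) (fun S q' hS => ?_) L' _ _ subset_rfl
        refine killed v ε hε κ M hκM s T δ c (hc c hcc) (lt_of_le_of_lt ?_ hT1) S q' hS
        refine mul_le_mul_of_nonneg_left ?_ (by positivity)
        exact Finset.single_le_sum (f := fun c : Fin r → ℤ =>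
          (∑ j, |(c j : ℝ)| + ∑ i, |∑ j, (c j : ℝ) * (v j i : ℝ)|)) (fun c _ => by positivity) hcc
    · rintro (c | c) _ i _ h1 h2
      · exact (((hkgood i h1 h2).mul_right _).mul_right _).mul_left _
      · exact ((hkgood i h1 h2).mul_right _).mul_right _
  have hfin : Φ (ph ε) ∅ (lm (N := N) s) (av v) (yT v T δ)
        (k * Polynomial.aeval (∑ j, X j : MvPolynomial (Fin r) ℂ) p) =
      ∑ κ ∈ KK, (∏ j, cf (κ j)) * HH v ε κ s (yT v T δ) ∅
        ((k * Polynomial.aeval (∑ j, X j : MvPolynomial (Fin r) ℂ) p) * ∏ j, dm M j) := by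
    unfold Φ HH
    simp only [← integral_const_mul]
    rw [Finset.map_empty, ← integral_finsetSum]
    · refine integral_congr_ae (Eventually.of_forall fun x => ?_)
      simp only
      rw [← hcf ε hε, Finset.mul_sum]
      exact Finset.sum_congr rfl fun κ _ => by ring
    · intro κ hκ
      have := HH_integrable v ε hε κ s (hzero κ hκ).2.2 (yT v T δ) ∅ _ (hzero κ hκ).2.1
      rw [Finset.map_empty] at this
      exact this.const_mul _
  rw [hfin]
  exact Finset.sum_eq_zero fun κ hκ => by rw [(hzero κ hκ).1, mul_zero]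

end Pool.Agent.W425.SL
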