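import Pool.Agent.W425.SL.Kill
import Pool.Agent.W425.SM.Final

set_option autoImplicit false

namespace Pool.Agent.W425.SL

open MvPolynomial Pool.Agent.H628R4.TZ Pool.Agent.H628R4.TP Pool.Agent.W425.SM MeasureTheory Set
  Filter Topology

variable {r N : ℕ}

/-- **`p(s) Zt(s)` is a polynomial, local version.** -/
theorem pZtL (v : Fin r → Fin N → ℕ) (R : SmoothFan N) (hv0 : ∀ j, v j ≠ 0)
    (hidx : idx v ∅ = 1) (α : ℝ) (hα : α < 0) (p : Polynomial ℂ) (hR : RelL v p)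
    (hk : ∀ (κ : Fin r → ℕ) (i : Fin N), ∑ j, κ j * v j i = 1 →
      kerP v ∈ Ideal.span {p : MvPolynomial (Fin r) ℂ | ∃ j, 0 < v j i ∧ p = X j + C ((κ j : ℕ) : ℂ)})
    (hC : ∀ K : ℝ, 0 < K → ∀ s : ℝ, 0 < s → ∀ J : Finset (Fin r), J.Nonempty →
      Tendsto (fun m : ℕ => ∫ x, integ v K α s J m x
        ∂(Measure.pi (ms (∅ : Finset (Fin (N+1)))))) atTop (𝓝 (limJ v R α s J))) :
    ∃ (Q : Polynomial ℂ) (s0 : ℝ), 0 < s0 ∧ ∀ s : ℝ, s0 ≤ s →
      p.eval (s : ℂ) * Zt v R α s = Q.eval (s : ℂ) := by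
  obtain ⟨K0, s0, hK0, hs0, hkill⟩ := killsL v p hR (kerP v) hk
  set K : ℝ := (1 + |α|) * K0 + 1 with hK
  have hKpos : 0 < K := by positivity
  have hev : ∀ᶠ m in atTop, dl m * K0 < -α := by
    have h1 : Tendsto (fun m => dl m * K0) atTop (𝓝 (0 * K0)) := dl_tendsto.mul_const K0
    rw [zero_mul] at h1
    exact h1.eventually (gt_mem_nhds (by linarith))
  obtain ⟨Q, hQ⟩ := limit_poly'
    (fun m => PeK v (yz v K α m) (dl m ^ 2) (kerP v) p) p.natDegree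
    (fun m => PeK_natDegree _ _ _ _ _) (fun s => p.eval (s : ℂ) * Zt v R α s) s0 (by
      intro s hs
      have hs' : 0 < s := hs0.trans_le hs
      have h1 := (ker_lim v R hv0 hidx K α s hs' (fun J hJ => hC K hKpos s hs' J hJ)).const_mul
        (p.eval (s : ℂ))
      refine h1.congr' ?_
      filter_upwards [hev] with m hm
      refine PeK_eval v _ _ _ p s (pow_pos (dl_pos m) 2) hs' ?_
      rw [yz_eq]
      have hd := dl_pos m
      have hd1 := dl_le m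
      refine hkill _ (pow_pos hd 2) _ (mul_neg_of_neg_of_pos hα hd) ?_ _ ?_ s hs
      · nlinarith
      · rw [abs_mul, abs_of_pos hd, hK]
        have h2 : dl m ^ 2 ≤ dl m := by nlinarith
        have h3 : (dl m ^ 2 + |α| * dl m) * K0 ≤ (dl m + |α| * dl m) * K0 :=
          mul_le_mul_of_nonneg_right (by linarith) hK0
        nlinarith)
  exact ⟨Q, s0, hs0, fun s hs => hQ s hs⟩

open Classical Polynomial in
/-- **Main theorem, from the polynomiality of `p(s) Zt(s)`.** -/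
theorem main_of [NeZero r] (v : Fin r → Fin N → ℕ) (hv : Function.Injective v)
    (hv0 : ∀ j, v j ≠ 0) (R : SmoothFan N) (hR : Principal v R)
    (hidx1 : ∀ J, J.card = 1 → idx v J = 1) (hidx : ∀ J, idx v J ≠ 0)
    (α : ℝ) (p : ℂ[X])
    (hZ : ∃ (Q : Polynomial ℂ) (s0 : ℝ), 0 < s0 ∧ ∀ s : ℝ, s0 ≤ s →
      p.eval (s : ℂ) * Zt v R α s = Q.eval (s : ℂ)) :
    ∃ P : ℂ[X], algebraMap ℂ[X] (RatFunc ℂ) ((Polynomial.X + 1) * p) * topZ v R α =
      algebraMap ℂ[X] (RatFunc ℂ) P := by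
  obtain ⟨Q, s0, hs0, hQ⟩ := hZ
  -- values of the zeta function
  set F : ℝ → ℂ := fun s => ∑ σ ∈ R.cones.filter (Inc α),
    (((chiO σ - chiH v σ : ℤ) : ℂ) + ((chiH v σ : ℤ) : ℂ) * ((s : ℂ) + 1)⁻¹) * wc v σ s with hF
  have hRp : Rp (topZ v R α) F := by
    unfold topZ
    refine Rp.sum _ _ _ fun σ hσ => ?_
    refine ((Rp.const _).add ((Rp.const _).mul Rp.inv_X1)).mul ?_
    unfold wc
    refine Rp.prod _ _ _ fun ρ hρ => ?_
    exact Rp.inv_lin _ _ (ray_sum_pos R σ (Finset.mem_filter.1 hσ).1 ρ hρ)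
  set A : ℂ := ∑ σ ∈ R.cones.filter (Inc α), (if ∃ ρ ∈ σ, ordAlong v ρ ≠ 0 then 0 else
    ((chiH v σ : ℤ) : ℂ) * ∏ ρ ∈ σ, (((∑ l, ρ l : ℕ) : ℂ))⁻¹) with hA
  refine ⟨p * (1 - Polynomial.X * Polynomial.C A) - Polynomial.X * Q,
    hRp.final _ _ s0 hs0 fun s hs => ?_⟩
  have hs' : 0 < s := hs0.trans_le hs
  have hs1 : (s : ℂ) + 1 ≠ 0 := by
    have := lin_ne 1 1 one_pos s hs'
    simpa using this
  have h1 := hQ s hs
  have h2 := s_Zt v hv hv0 R hR hidx1 hidx α s hs'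
  have h3 : ((s : ℂ) + 1) * F s = (1 - (s : ℂ) * Zt v R α s) - s * A := by
    rw [h2, hF, hA, Finset.mul_sum, Finset.mul_sum, sub_sub_cancel, ← Finset.sum_sub_distrib]
    refine Finset.sum_congr rfl fun σ hσ => ?_
    have h4 : ((s : ℂ) + 1) * ((((chiO σ - chiH v σ : ℤ) : ℂ) +
        ((chiH v σ : ℤ) : ℂ) * ((s : ℂ) + 1)⁻¹) * wc v σ s) =
        ((s + 1) * ((chiO σ : ℤ) : ℂ) - s * ((chiH v σ : ℤ) : ℂ)) * wc v σ s := by
      push_cast
      field_simp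
      ring
    rw [h4]
    by_cases hE : ∃ ρ ∈ σ, ordAlong v ρ ≠ 0
    · rw [if_pos hE, if_pos hE, mul_zero, sub_zero]
    · rw [if_neg hE, if_neg hE]
      have hN : σ.card ≠ N := fun h => hE (full_ord v hv0 R hR σ (Finset.mem_filter.1 hσ).1 h)
      have h5 : wc v σ s = ∏ ρ ∈ σ, (((∑ l, ρ l : ℕ) : ℂ))⁻¹ := by
        unfold wc
        refine Finset.prod_congr rfl fun ρ hρ => ?_
        push Not at hE
        rw [hE ρ hρ]
        simp
      rw [h5, chiO, if_neg hN]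
      push_cast
      ring
  rw [Polynomial.eval_mul, Polynomial.eval_sub, Polynomial.eval_mul, Polynomial.eval_sub,
    Polynomial.eval_mul, Polynomial.eval_mul, Polynomial.eval_X, Polynomial.eval_C,
    Polynomial.eval_add, Polynomial.eval_X, Polynomial.eval_one, ← h1]
  linear_combination (p.eval (s : ℂ)) * h3


/-- The local topological zeta function at the origin: the cones whose relative interior is in the
open orthant. -/
noncomputable def topZetaSparseLocal (v : Fin r → Fin N → ℕ) (R : SmoothFan N) : RatFunc ℂ :=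
  open Classical in
  ∑ σ ∈ R.cones.filter (fun σ => ∀ l, ∃ ρ ∈ σ, ρ l ≠ 0),
    (((chiO σ - chiH v σ : ℤ) : RatFunc ℂ) +
      ((chiH v σ : ℤ) : RatFunc ℂ) * (RatFunc.X + 1)⁻¹) *
    ∏ ρ ∈ σ, ((ordAlong v ρ : RatFunc ℂ) * RatFunc.X + ((∑ l, ρ l : ℕ) : RatFunc ℂ))⁻¹

lemma topZ_neg (v : Fin r → Fin N → ℕ) (R : SmoothFan N) :
    topZ v R (-1) = topZetaSparseLocal v R := by
  classical
  unfold topZ topZetaSparseLocal
  refine Finset.sum_congr ?_ fun _ _ => rfl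
  refine Finset.filter_congr fun σ _ => ?_
  unfold Inc
  constructor
  · rintro (h | h)
    · norm_num at h
    · exact h
  · exact Or.inr

open Polynomial in
theorem mainL_rel [NeZero r] (v : Fin r → Fin N → ℕ) (hv : Ind v)
    (hv0 : ∀ j, v j ≠ 0) (R : SmoothFan N) (hR : Principal v R) (p : ℂ[X]) (hp : RelL v p) :
    ∃ P : ℂ[X], algebraMap ℂ[X] (RatFunc ℂ) ((Polynomial.X + 1) * p) * topZetaSparseLocal v R =
      algebraMap ℂ[X] (RatFunc ℂ) P := by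
  rw [← topZ_neg]
  refine main_of v hv.injective hv0 R hR
    (fun J hJ => (Pool.Agent.W655.SM.taskC4 v J hv).2.1 hJ)
    (fun J => (Pool.Agent.W655.SM.taskC4 v J hv).1) (-1) p ?_
  exact pZtL v R hv0 ((Pool.Agent.W655.SM.taskC4 v ∅ hv).2.2 rfl) (-1) (by norm_num) p hp
    (fun κ i h => Pool.Agent.W655.SM.taskK v κ i h)
    (fun K hK s hs J hJ => conv_all v hv R hR (-1) (by norm_num) K hK s hs J hJ)

open Polynomial in
theorem mainL (hL1 : TaskL1) (hL2 : TaskL2) (hr : 1 ≤ r) (v : Fin r → Fin N → ℕ) (a : Fin r → ℂ)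
    (hv : AffineIndependent ℚ (fun j => (fun i => (v j i : ℚ) : Fin N → ℚ)))
    (hv0 : ∀ j, v j ≠ 0) (ha : ∀ j, a j ≠ 0) (R : SmoothFan N) (hR : Principal v R)
    (b : ℂ[X]) (hb : IsLocalBFunction (sparse v a) b) (hf : sparse v a ≠ 0)
    (hf0 : constantCoeff (sparse v a) = 0) :
    ∃ P : ℂ[X], algebraMap ℂ[X] (RatFunc ℂ) b * topZetaSparseLocal v R =
      algebraMap ℂ[X] (RatFunc ℂ) P := by
  have : NeZero r := ⟨by omega⟩
  obtain ⟨h1, h2⟩ := hL1 (sparse v a) b hf hf0 hb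
  obtain ⟨p, hp⟩ := Polynomial.dvd_iff_isRoot.2 (show b.IsRoot (-1) from h1)
  have hp' : b = (Polynomial.X + 1) * p := by
    rw [hp]
    congr 1
    simp
  rw [hp'] at h2 ⊢
  exact mainL_rel v hv hv0 R hR p (hL2 v a p hv ha h2)

end Pool.Agent.W425.SL
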